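import Mathlib
import Pool.Agent.W842.KF.Stm

set_option autoImplicit false

namespace Pool.Agent.W853.KF

open Finset Pool.Agent.W842.KF

theorem xx (k j : ℕ) : (k ^^^ 2 ^ j) ^^^ 2 ^ j = k := by
  rw [Nat.xor_assoc, Nat.xor_self, Nat.xor_zero]

theorem sg_core {o b m j x : ℕ} (hb : 1 ≤ b) (hj : j < m) (hx : inT o b m x) :
    inT o b m (sg o b m j x) ∧ bk o b (sg o b m j x) = bk o b x ^^^ 2 ^ j ∧
      (sg o b m j x - o) % b = (x - o) % b := by
  have hk : bk o b x < 2 ^ m := by
    unfold bk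
    rw [Nat.div_lt_iff_lt_mul (by omega)]
    have := hx.2
    have := hx.1
    omega
  have h2 : 2 ^ j < 2 ^ m := Nat.pow_lt_pow_right (by norm_num) hj
  have hk' : bk o b x ^^^ 2 ^ j < 2 ^ m := Nat.xor_lt_two_pow hk h2
  rw [sg_in hx]
  set k' := bk o b x ^^^ 2 ^ j with hk'd
  have hr : (x - o) % b < b := Nat.mod_lt _ (by omega)
  have e : o + k' * b + (x - o) % b - o = (x - o) % b + k' * b := by omega
  refine ⟨⟨by omega, ?_⟩, ?_, ?_⟩
  · have h1 : (k' + 1) * b ≤ 2 ^ m * b := Nat.mul_le_mul_right b hk'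
    have h3 : (k' + 1) * b = k' * b + b := by ring
    omega
  · unfold bk
    rw [e, Nat.add_mul_div_right _ _ (by omega), Nat.div_eq_of_lt hr, Nat.zero_add]
  · rw [e, Nat.add_mul_mod_self_right, Nat.mod_mod]

theorem mod_succ_iff (α β j : ℕ) : α % 2 ^ (j + 1) = β % 2 ^ (j + 1) ↔
    α % 2 ^ j = β % 2 ^ j ∧ α.testBit j = β.testBit j := by
  constructor
  · intro h
    have h1 : ∀ i, i < j + 1 → α.testBit i = β.testBit i := by
      intro i hi
      have := congrArg (fun t => Nat.testBit t i) h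
      simpa [Nat.testBit_mod_two_pow, hi] using this
    refine ⟨?_, h1 j (by omega)⟩
    apply Nat.eq_of_testBit_eq
    intro i
    rw [Nat.testBit_mod_two_pow, Nat.testBit_mod_two_pow]
    by_cases hi : i < j
    · rw [h1 i (by omega)]
    · simp [hi]
  · rintro ⟨h, h'⟩
    apply Nat.eq_of_testBit_eq
    intro i
    rw [Nat.testBit_mod_two_pow, Nat.testBit_mod_two_pow]
    by_cases hi : i < j + 1
    · rcases Nat.lt_succ_iff_lt_or_eq.mp hi with hi' | hi'
      · have := congrArg (fun t => Nat.testBit t i) h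
        have h2 : α.testBit i = β.testBit i := by
          simpa [Nat.testBit_mod_two_pow, hi'] using this
        rw [h2]
      · subst hi'
        rw [h']
    · simp [hi]

theorem t_sg : S_SG := by
  refine ⟨?_, ?_⟩
  · intro o b m j hb hj x
    refine ⟨?_, fun hx => (sg_core hb hj hx).1, fun hx => (sg_core hb hj hx).2.1⟩
    by_cases hx : inT o b m x
    · obtain ⟨h1, h2, h3⟩ := sg_core hb hj hx
      rw [sg_in h1, h2, h3, xx]
      unfold bk
      have := Nat.div_add_mod' (x - o) b
      have := hx.1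
      omega
    · rw [sg_out hx, sg_out hx]
  · intro α β j
    have e1 : (α ^^^ 2 ^ j) % 2 ^ j = α % 2 ^ j := by
      rw [Nat.xor_mod_two_pow, Nat.mod_self, Nat.xor_zero]
    have e2 : (α ^^^ 2 ^ j).testBit j = !(α.testBit j) := by
      rw [Nat.testBit_xor, Nat.testBit_two_pow_self, Bool.xor_true]
    simp only [mod_succ_iff, e1, e2]
    by_cases h : α % 2 ^ j = β % 2 ^ j
    · cases h1 : α.testBit j <;> cases h2 : β.testBit j <;> simp [h]
    · simp [h]

end Pool.Agent.W853.KF
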